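import Mathlib
import Pool.Agent.Helper850.RC.P_ramsey

/-!
# Words in place of increasing tuples

An abstract form of types of finite tuples, and the main combinatorial lemma: a family indexed by
the tuples of rationals, whose types only depend on the order, can be turned into a family indexed
by tuples of letters with a pattern, such that every linear order of the letters gives the old
types.
-/

set_option autoImplicit false

namespace Pool.Agent.R617.LH

/-- Types of tuples of elements of `X`. -/
structure TS (X : Type) where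
  E : {ι : Type} → (ι → X) → (ι → X) → Prop
  refl : ∀ {ι : Type} (a : ι → X), E a a
  symm : ∀ {ι : Type} {a b : ι → X}, E a b → E b a
  trans : ∀ {ι : Type} {a b c : ι → X}, E a b → E b c → E a c
  comp : ∀ {ι κ : Type} {a b : ι → X} (s : κ → ι), E a b → E (a ∘ s) (b ∘ s)
  ext : ∀ {ι κ : Type} [Finite ι] [Finite κ] (g : ι → κ) (c : κ → X) (b : ι → X),
    E (c ∘ g) b → ∃ c' : κ → X, E c c' ∧ ∀ i, c' (g i) = b i
  fin : ∀ (ι : Type) [Finite ι], ∃ (q : ℕ) (τ : (ι → X) → Fin q), ∀ a b, τ a = τ b → E a b
  swap : ∀ (ι : Type) [Finite ι], ∃ L : ℕ, 2 ≤ L ∧ ∀ c : Fin L → ι → X,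
    (∀ i j i' j', i < j → i' < j' →
      E (Sum.elim (c i) (c j)) (Sum.elim (c i') (c j'))) →
    ∀ i j, i < j → E (Sum.elim (c i) (c j)) (Sum.elim (c j) (c i))

/-- Order patterns of tuples. -/
abbrev Pat (d : ℕ) : Type := Fin d → Fin d → Bool

/-- The pattern of a tuple. -/
def pat {d : ℕ} (t : Fin d → ℚ) : Pat d := fun i j => decide (t i < t j)

variable {X : Type} {T : TS X} {d : ℕ} {h : (Fin d → ℚ) → X}

variable (T h) in
/-- The types of the families `h (t a)` only depend on the order type. -/
def OrdInv : Prop := ∀ (κ : Type) [Finite κ] (t t' : κ → Fin d → ℚ),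
  (∀ a b i j, t a i < t b j ↔ t' a i < t' b j) → T.E (fun a => h (t a)) (fun a => h (t' a))

variable (T h) in
/-- Systems on the letters `Fin n` (in their order) and the free letters `W`. -/
def Sys {n : ℕ} {W : Type} (F : (Fin d → Fin n ⊕ W) × Pat d → X) : Prop :=
  ∀ (κ : Type) [Finite κ] (x : κ → Fin d → Fin n ⊕ W) (t : κ → Fin d → ℚ),
    (∀ a b i j, x a i = x b j ↔ t a i = t b j) →
    (∀ a b i j k l, x a i = Sum.inl k → x b j = Sum.inl l → k < l → t a i < t b j) →
    T.E (fun a => F (x a, pat (t a))) (fun a => h (t a))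

/-- Restriction of a system. -/
def res {n m : ℕ} {W : Type} (F : (Fin d → Fin n ⊕ W) × Pat d → X) (e : Fin m → Fin n) :
    (Fin d → Fin m ⊕ W) × Pat d → X := fun z => F (Sum.map e id ∘ z.1, z.2)

variable (T) in
/-- Indiscernibility for subsets of size `m`. -/
def Ind {n : ℕ} (m : ℕ) {W : Type} (F : (Fin d → Fin n ⊕ W) × Pat d → X) : Prop :=
  ∀ e e' : Fin m → Fin n, StrictMono e → StrictMono e' → T.E (res F e) (res F e')

theorem sys_res {n m : ℕ} {W : Type} {F : (Fin d → Fin n ⊕ W) × Pat d → X}
    (hF : Sys T h F) (e : Fin m → Fin n) (he : StrictMono e) : Sys T h (res F e) := by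
  intro κ _ x t h1 h2
  have hinj : Function.Injective (Sum.map e id : Fin m ⊕ W → Fin n ⊕ W) :=
    Function.Injective.sumMap he.injective Function.injective_id
  refine hF κ (fun a => Sum.map e id ∘ x a) t ?_ ?_
  · intro a b i j
    rw [← h1]
    exact hinj.eq_iff
  · intro a b i j k l hk hl hkl
    rcases hx : x a i with u | u
    · rcases hy : x b j with v | v
      · have h3 : e u = k := by
          have : (Sum.map e id ∘ x a) i = Sum.inl (e u) := by
            show Sum.map e id (x a i) = _
            rw [hx]; rfl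
          rw [this] at hk
          exact Sum.inl_injective hk
        have h4 : e v = l := by
          have : (Sum.map e id ∘ x b) j = Sum.inl (e v) := by
            show Sum.map e id (x b j) = _
            rw [hy]; rfl
          rw [this] at hl
          exact Sum.inl_injective hl
        exact h2 a b i j u v hx hy (he.lt_iff_lt.1 (by rw [h3, h4]; exact hkl))
      · have : (Sum.map e id ∘ x b) j = Sum.inr v := by
          show Sum.map e id (x b j) = _
          rw [hy]; rfl
        rw [this] at hl
        cases hl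
    · have : (Sum.map e id ∘ x a) i = Sum.inr u := by
        show Sum.map e id (x a i) = _
        rw [hx]; rfl
      rw [this] at hk
      cases hk

theorem res_res {n m k : ℕ} {W : Type} (F : (Fin d → Fin n ⊕ W) × Pat d → X)
    (e : Fin m → Fin n) (e' : Fin k → Fin m) : res (res F e) e' = res F (e ∘ e') := by
  funext z
  show F (Sum.map e id ∘ Sum.map e' id ∘ z.1, z.2) = F (Sum.map (e ∘ e') id ∘ z.1, z.2)
  rw [← Function.comp_assoc, Sum.map_comp_map]
  rfl

/-- Ramsey's theorem gives indiscernible systems. -/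
theorem exists_ind {W : Type} [Finite W]
    (hS : ∀ n, ∃ F : (Fin d → Fin n ⊕ W) × Pat d → X, Sys T h F) (n m : ℕ) :
    ∃ F : (Fin d → Fin n ⊕ W) × Pat d → X, Sys T h F ∧ Ind T m F := by
  classical
  obtain ⟨q, τ, hτ⟩ := T.fin ((Fin d → Fin m ⊕ W) × Pat d)
  obtain ⟨C, hC⟩ := RC.ramsey m
  obtain ⟨a, ha⟩ := hC q
  set N := RC.tow C (a * (n + 1)) + 1 with hN
  obtain ⟨F, hF⟩ := hS N
  have hN0 : 0 < N := by omega
  obtain ⟨R, hRs, hRc, hR⟩ := ha n (Finset.range N) (by rw [Finset.card_range]; omega)
    (fun s => τ (res F fun l => if hl : s l < N then ⟨s l, hl⟩ else ⟨0, hN0⟩))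
  have hlt : ∀ i : Fin n, R.orderEmbOfFin hRc i < N := fun i =>
    Finset.mem_range.1 (hRs (Finset.orderEmbOfFin_mem R hRc i))
  let g : Fin n → Fin N := fun i => ⟨R.orderEmbOfFin hRc i, hlt i⟩
  have hg : StrictMono g := fun i j hij => (R.orderEmbOfFin hRc).strictMono hij
  refine ⟨res F g, sys_res hF g hg, ?_⟩
  intro e e' he he'
  rw [res_res, res_res]
  apply hτ
  have h1 := hR (fun l => R.orderEmbOfFin hRc (e l)) (fun l => R.orderEmbOfFin hRc (e' l))
    ((R.orderEmbOfFin hRc).strictMono.comp he) ((R.orderEmbOfFin hRc).strictMono.comp he')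
    (fun l => Finset.orderEmbOfFin_mem R hRc _) (fun l => Finset.orderEmbOfFin_mem R hRc _)
  have h2 : (fun l : Fin m => if hl : R.orderEmbOfFin hRc (e l) < N then
      (⟨R.orderEmbOfFin hRc (e l), hl⟩ : Fin N) else ⟨0, hN0⟩) = g ∘ e := by
    funext l
    rw [dif_pos (hlt _)]
    rfl
  have h3 : (fun l : Fin m => if hl : R.orderEmbOfFin hRc (e' l) < N then
      (⟨R.orderEmbOfFin hRc (e' l), hl⟩ : Fin N) else ⟨0, hN0⟩) = g ∘ e' := by
    funext l
    rw [dif_pos (hlt _)]
    rfl
  simp only [h2, h3] at h1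
  exact h1

end Pool.Agent.R617.LH
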