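import Mathlib

/-!
# Interpretations and stability
-/

set_option autoImplicit false

namespace Pool.Agent.R617.LH

open FirstOrder

/-- The rational numbers with their order. -/
instance ratOrder : Language.order.Structure ℚ := Language.orderStructure ℚ

/-- The natural numbers as a pure set: a structure with empty signature. -/
instance pureNat : Language.empty.Structure ℕ := Language.emptyStructure

/-- A first-order interpretation (without parameters, of some finite dimension) of a structure `A`
with relational signature `L` in a structure `M` with signature `K`: a definable set `dom` of
`dim`-tuples and a map of `dom` onto `A`, such that the preimages of the equality and of every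
relation of `A` are definable. -/
structure Interpretation (K : FirstOrder.Language.{0, 0}) (M : Type) [K.Structure M]
    (L : FirstOrder.Language.{0, 0}) (A : Type) [L.Structure A] where
  dim : ℕ
  dom : Set (Fin dim → M)
  map : dom → A
  surjective : Function.Surjective map
  definable_dom : (∅ : Set M).Definable K dom
  definable_eq : (∅ : Set M).Definable K {v : Fin 2 × Fin dim → M |
    ∃ h : ∀ i, (fun j => v (i, j)) ∈ dom, map ⟨_, h 0⟩ = map ⟨_, h 1⟩}
  definable_rel : ∀ {n : ℕ} (R : L.Relations n), (∅ : Set M).Definable K
    {v : Fin n × Fin dim → M |
      ∃ h : ∀ i, (fun j => v (i, j)) ∈ dom, Language.Structure.RelMap R fun i => map ⟨_, h i⟩}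

/-- The theory of `A` is stable: no formula has the order property, that is, for every formula
there is a bound on the length of the sequences in `A` which it orders. -/
def IsStable (L : FirstOrder.Language.{0, 0}) (A : Type) [L.Structure A] : Prop :=
  ∀ (m k : ℕ) (φ : L.Formula (Fin m ⊕ Fin k)), ∃ n : ℕ,
    ¬ ∃ (a : Fin n → Fin m → A) (b : Fin n → Fin k → A),
      ∀ i j, φ.Realize (Sum.elim (a i) (b j)) ↔ i < j

end Pool.Agent.R617.LH
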