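import Pool.Agent.R617.LH.Swap

/-!
# Inserting a new letter in all places
-/

set_option autoImplicit false

namespace Pool.Agent.R617.LH

variable {X : Type} {T : TS X} {d : ℕ} {h : (Fin d → ℚ) → X} {W : Type}

/-- Inserting the new letter at the place `k`. -/
def ins {n : ℕ} (k : Fin (n + 1)) : Fin n ⊕ Option W → Fin (n + 1) ⊕ W
  | Sum.inl j => Sum.inl (k.succAbove j)
  | Sum.inr none => Sum.inl k
  | Sum.inr (some w) => Sum.inr w

theorem ins_injective {n : ℕ} (k : Fin (n + 1)) : Function.Injective (ins (W := W) k) := by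
  intro a b hab
  rcases a with a | _ | a <;> rcases b with b | _ | b
  · exact congrArg Sum.inl (Fin.succAbove_right_injective (Sum.inl_injective hab))
  · exact absurd (Sum.inl_injective hab) (Fin.succAbove_ne k a)
  · cases hab
  · exact absurd (Sum.inl_injective hab).symm (Fin.succAbove_ne k b)
  · rfl
  · cases hab
  · cases hab
  · cases hab
  · exact congrArg (fun w => Sum.inr (some w)) (Sum.inr_injective hab)

/-- The letter `k` replaced by the new letter. -/
def rep {n : ℕ} (k : Fin n) : Fin n ⊕ W → Fin n ⊕ Option W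
  | Sum.inl j => if j = k then Sum.inr none else Sum.inl j
  | Sum.inr w => Sum.inr (some w)

theorem ins_map {n : ℕ} (k : Fin (n + 1)) :
    ins (W := W) k ∘ Sum.map id some = Sum.map k.succAbove id := by
  funext a
  rcases a with a | a <;> rfl

theorem succAbove_ne_eq {n : ℕ} {k j : Fin n} (hj : j ≠ k) :
    k.succ.succAbove j = k.castSucc.succAbove j := by
  rcases lt_or_gt_of_ne hj with h1 | h1
  · rw [Fin.succAbove_of_castSucc_lt _ _ (Fin.castSucc_lt_castSucc_iff.2 h1),
      Fin.succAbove_of_castSucc_lt]
    exact lt_of_lt_of_le (Fin.castSucc_lt_castSucc_iff.2 h1) (Fin.castSucc_lt_succ).le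
  · rw [Fin.succAbove_of_le_castSucc _ _ (Fin.castSucc_le_castSucc_iff.2 h1.le),
      Fin.succAbove_of_le_castSucc]
    rw [Fin.le_def]
    rw [Fin.lt_def] at h1
    simp only [Fin.val_succ, Fin.val_castSucc]
    omega

theorem ins_castSucc_rep {n : ℕ} (k : Fin n) :
    ins (W := W) k.castSucc ∘ rep k = Sum.map k.succ.succAbove id := by
  funext a
  rcases a with a | a
  · by_cases h1 : a = k
    · subst h1
      show ins a.castSucc (if a = a then Sum.inr none else Sum.inl a) = _
      rw [if_pos rfl]
      show Sum.inl _ = Sum.inl _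
      congr 1
      rw [Fin.succAbove_of_castSucc_lt _ _ Fin.castSucc_lt_succ]
    · show ins k.castSucc (if a = k then Sum.inr none else Sum.inl a) = _
      rw [if_neg h1]
      show Sum.inl _ = Sum.inl _
      rw [succAbove_ne_eq h1]
  · rfl

theorem ins_succ_rep {n : ℕ} (k : Fin n) :
    ins (W := W) k.succ ∘ rep k = Sum.map k.castSucc.succAbove id := by
  funext a
  rcases a with a | a
  · by_cases h1 : a = k
    · subst h1
      show ins a.succ (if a = a then Sum.inr none else Sum.inl a) = _
      rw [if_pos rfl]
      show Sum.inl _ = Sum.inl _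
      congr 1
      rw [Fin.succAbove_of_le_castSucc _ _ le_rfl]
    · show ins k.succ (if a = k then Sum.inr none else Sum.inl a) = _
      rw [if_neg h1]
      show Sum.inl _ = Sum.inl _
      rw [succAbove_ne_eq h1]
  · rfl

/-- The old system seen from the new letters. -/
def look {n : ℕ} (F : (Fin d → Fin (n + 1) ⊕ W) × Pat d → X) (k : Fin (n + 1)) :
    (Fin d → Fin n ⊕ Option W) × Pat d → X := fun z => F (ins k ∘ z.1, z.2)

/-- The words without the new letter and the words without the letter `k`. -/
def gk {n : ℕ} (k : Fin n) : ((Fin d → Fin n ⊕ W) × Pat d) ⊕ ((Fin d → Fin n ⊕ W) × Pat d) →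
    (Fin d → Fin n ⊕ Option W) × Pat d :=
  Sum.elim (fun z => (Sum.map id some ∘ z.1, z.2)) (fun z => (rep k ∘ z.1, z.2))

theorem look_castSucc {n : ℕ} (F : (Fin d → Fin (n + 1) ⊕ W) × Pat d → X) (k : Fin n) :
    look F k.castSucc ∘ gk k =
      Sum.elim (res F k.castSucc.succAbove) (res F k.succ.succAbove) := by
  funext z
  rcases z with z | z
  · show F (ins k.castSucc ∘ (Sum.map id some ∘ z.1), z.2) = F _
    rw [← Function.comp_assoc, ins_map]
  · show F (ins k.castSucc ∘ (rep k ∘ z.1), z.2) = F _
    rw [← Function.comp_assoc, ins_castSucc_rep]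

theorem look_succ {n : ℕ} (F : (Fin d → Fin (n + 1) ⊕ W) × Pat d → X) (k : Fin n) :
    look F k.succ ∘ gk k =
      Sum.elim (res F k.succ.succAbove) (res F k.castSucc.succAbove) := by
  funext z
  rcases z with z | z
  · show F (ins k.succ ∘ (Sum.map id some ∘ z.1), z.2) = F _
    rw [← Function.comp_assoc, ins_map]
  · show F (ins k.succ ∘ (rep k ∘ z.1), z.2) = F _
    rw [← Function.comp_assoc, ins_succ_rep]

theorem mem_gk_of_none {n : ℕ} (k : Fin n) (z : (Fin d → Fin n ⊕ Option W) × Pat d)
    (hz : ∀ i, z.1 i ≠ Sum.inr none) : ∃ y, gk k y = z := by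
  have h1 : ∀ i, ∃ v : Fin n ⊕ W, Sum.map id some v = z.1 i := by
    intro i
    rcases hi : z.1 i with u | _ | u
    · exact ⟨Sum.inl u, rfl⟩
    · exact absurd hi (hz i)
    · exact ⟨Sum.inr u, rfl⟩
  choose v hv using h1
  exact ⟨Sum.inl (v, z.2), Prod.ext (funext hv) rfl⟩

theorem mem_gk_of_inl {n : ℕ} (k : Fin n) (z : (Fin d → Fin n ⊕ Option W) × Pat d)
    (hz : ∀ i, z.1 i ≠ Sum.inl k) : ∃ y, gk k y = z := by
  have h1 : ∀ i, ∃ v : Fin n ⊕ W, rep k v = z.1 i := by
    intro i
    rcases hi : z.1 i with u | _ | u
    · refine ⟨Sum.inl u, ?_⟩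
      show (if u = k then Sum.inr none else Sum.inl u) = _
      rw [if_neg]
      intro h2
      subst h2
      exact hz i hi
    · refine ⟨Sum.inl k, ?_⟩
      show (if k = k then Sum.inr none else Sum.inl k) = _
      rw [if_pos rfl]
    · exact ⟨Sum.inr u, rfl⟩
  choose v hv using h1
  exact ⟨Sum.inr (v, z.2), Prod.ext (funext hv) rfl⟩

theorem exists_chain [Finite W] {n : ℕ} (F : (Fin d → Fin (n + 1) ⊕ W) × Pat d → X)
    (hF : ∀ k : Fin n,
      T.E (Sum.elim (res F k.succ.succAbove) (res F k.castSucc.succAbove))
        (Sum.elim (res F k.castSucc.succAbove) (res F k.succ.succAbove))) (m : ℕ) (hm : m ≤ n) :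
    ∃ H : ℕ → (Fin d → Fin n ⊕ Option W) × Pat d → X,
      (∀ (k : ℕ) (hk : k < n + 1), k ≤ m → T.E (look F ⟨k, hk⟩) (H k)) ∧
      ∀ k : Fin n, (k : ℕ) < m → ∀ y, H (k + 1) (gk k y) = H k (gk k y) := by
  induction m with
  | zero =>
    refine ⟨fun _ => look F 0, fun k hk h0 => ?_, fun k hk => absurd hk (Nat.not_lt_zero _)⟩
    have : k = 0 := Nat.le_zero.1 h0
    subst this
    exact T.refl _
  | succ m ih =>
    obtain ⟨H, h1, h2⟩ := ih (by omega)
    let k : Fin n := ⟨m, by omega⟩
    have h3 : T.E (look F k.castSucc ∘ gk k) (H m ∘ gk k) :=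
      T.comp (gk k) (h1 m (by omega) le_rfl)
    have h4 : T.E (look F k.succ ∘ gk k) (H m ∘ gk k) := by
      refine T.trans ?_ h3
      rw [look_castSucc, look_succ]
      exact hF k
    obtain ⟨c', h5, h6⟩ := T.ext (gk k) (look F k.succ) (H m ∘ gk k) h4
    refine ⟨Function.update H (m + 1) c', fun j hj hjm => ?_, fun j hj y => ?_⟩
    · by_cases h7 : j = m + 1
      · subst h7
        rw [Function.update_self]
        exact h5
      · rw [Function.update_of_ne h7]
        exact h1 j hj (by omega)
    · by_cases h7 : (j : ℕ) = m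
      · have h8 : j = k := Fin.ext h7
        subst h8
        rw [h7, Function.update_self, Function.update_of_ne (by omega)]
        exact h6 y
      · rw [Function.update_of_ne (by omega), Function.update_of_ne (by omega)]
        exact h2 j (by omega) y

open Classical in
/-- The first place where the new letter can be put. -/
noncomputable def cut {n : ℕ} (z : (Fin d → Fin n ⊕ Option W) × Pat d) : ℕ :=
  Finset.univ.sup fun l : Fin n =>
    if ∃ i j, z.1 i = Sum.inl l ∧ z.1 j = Sum.inr none ∧ z.2 i j = true then (l : ℕ) + 1 else 0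

theorem cut_le {n : ℕ} {z : (Fin d → Fin n ⊕ Option W) × Pat d} {k : ℕ}
    (hk : ∀ (l : Fin n) i j, z.1 i = Sum.inl l → z.1 j = Sum.inr none → z.2 i j = true → l < k) :
    cut z ≤ k := by
  unfold cut
  refine Finset.sup_le fun l _ => ?_
  split_ifs with h1
  · obtain ⟨i, j, h2, h3, h4⟩ := h1
    exact hk l i j h2 h3 h4
  · omega

theorem lt_cut {n : ℕ} {z : (Fin d → Fin n ⊕ Option W) × Pat d} {l : Fin n} {i j : Fin d}
    (h1 : z.1 i = Sum.inl l) (h2 : z.1 j = Sum.inr none) (h3 : z.2 i j = true) :
    (l : ℕ) + 1 ≤ cut z := by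
  unfold cut
  refine le_trans ?_ (Finset.le_sup (Finset.mem_univ l))
  rw [if_pos ⟨i, j, h1, h2, h3⟩]

theorem step [Finite W]
    (hS : ∀ n, ∃ F : (Fin d → Fin n ⊕ W) × Pat d → X, Sys T h F) (n : ℕ) :
    ∃ F : (Fin d → Fin n ⊕ Option W) × Pat d → X, Sys T h F := by
  classical
  obtain ⟨F, hF, hsw⟩ := exists_swap hS n
  obtain ⟨H, h1, h2⟩ := exists_chain F hsw n le_rfl
  refine ⟨fun z => H (cut z) z, ?_⟩
  intro κ _ x t hx ho
  -- the place of the new letter
  have hk : ∃ k : ℕ, k ≤ n ∧ ∀ a b i j (l : Fin n), x a i = Sum.inl l → x b j = Sum.inr none →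
      (t a i < t b j ↔ l < k) := by
    by_cases hb : ∃ b j, x b j = Sum.inr none
    · obtain ⟨b0, j0, hb0⟩ := hb
      have hb1 : ∀ b j, x b j = Sum.inr none → t b j = t b0 j0 := fun b j hbj =>
        (hx b b0 j j0).1 (hbj.trans hb0.symm)
      refine ⟨Finset.univ.sup fun l : Fin n =>
        if ∃ a i, x a i = Sum.inl l ∧ t a i < t b0 j0 then (l : ℕ) + 1 else 0, ?_, ?_⟩
      · refine Finset.sup_le fun l _ => ?_
        have := l.2
        split_ifs <;> omega
      · intro a b i j l ha hbj
        rw [hb1 b j hbj]
        constructor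
        · intro hlt
          refine lt_of_lt_of_le (Nat.lt_succ_self _) (le_trans ?_
            (Finset.le_sup (Finset.mem_univ l)))
          rw [if_pos ⟨a, i, ha, hlt⟩]
        · intro hlt
          rw [Finset.lt_sup_iff] at hlt
          obtain ⟨l', -, hl'⟩ := hlt
          split_ifs at hl' with h3
          · obtain ⟨a', i', h4, h5⟩ := h3
            rcases Nat.lt_or_eq_of_le (Nat.lt_succ_iff.1 hl') with h6 | h6
            · exact (ho a a' i i' l l' ha h4 h6).trans h5
            · have h7 : l = l' := Fin.ext h6
              subst h7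
              rwa [(hx a a' i i').1 (ha.trans h4.symm)]
          · omega
    · exact ⟨0, by omega, fun a b i j l _ h3 => absurd ⟨b, j, h3⟩ hb⟩
  obtain ⟨k, hkn, hk⟩ := hk
  -- the values are those at the place `k`
  have hval : ∀ a, H (cut (x a, pat (t a))) (x a, pat (t a)) = H k (x a, pat (t a)) := by
    intro a
    set z : (Fin d → Fin n ⊕ Option W) × Pat d := (x a, pat (t a)) with hz
    have hc : cut z ≤ k := by
      apply cut_le
      intro l i j h3 h4 h5
      exact (hk a a i j l h3 h4).1 (of_decide_eq_true h5)
    have key : ∀ m, cut z ≤ m → m ≤ k → H m z = H (cut z) z := by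
      intro m hm1
      induction m, hm1 using Nat.le_induction with
      | base => intro _; rfl
      | succ m hm1 ih =>
        intro hm2
        rw [← ih (by omega)]
        have hmn : m < n := by omega
        have hy : ∃ y, gk ⟨m, hmn⟩ y = z := by
          by_cases h3 : ∃ i, z.1 i = Sum.inl ⟨m, hmn⟩
          · obtain ⟨i, h3⟩ := h3
            apply mem_gk_of_none
            intro j h4
            have h5 : t a i < t a j := (hk a a i j ⟨m, hmn⟩ h3 h4).2 (by
              show m < k
              omega)
            have h6 := lt_cut (z := z) h3 h4 (decide_eq_true h5)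
            have h7 : m + 1 ≤ cut z := h6
            omega
          · apply mem_gk_of_inl
            intro i h4
            exact h3 ⟨i, h4⟩
        obtain ⟨y, hy⟩ := hy
        rw [← hy]
        exact h2 ⟨m, hmn⟩ hmn y
    exact (key k hc le_rfl).symm
  have h3 : T.E (fun a => H (cut (x a, pat (t a))) (x a, pat (t a)))
      (fun a => F (ins ⟨k, by omega⟩ ∘ x a, pat (t a))) := by
    have h4 : (fun a => H (cut (x a, pat (t a))) (x a, pat (t a))) =
        H k ∘ fun a => (x a, pat (t a)) := funext hval
    rw [h4]
    exact T.symm (T.comp (fun a => (x a, pat (t a))) (h1 k (by omega) hkn))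
  refine T.trans h3 (hF κ (fun a => ins ⟨k, by omega⟩ ∘ x a) t ?_ ?_)
  · intro a b i j
    rw [← hx]
    exact (ins_injective _).eq_iff
  · intro a b i j p q hp hq hpq
    rcases hxa : x a i with u | _ | u
    · rcases hxb : x b j with v | _ | v
      · have h5 : Fin.succAbove ⟨k, by omega⟩ u = p := by
          have : ins (W := W) ⟨k, by omega⟩ (x a i) = Sum.inl p := hp
          rw [hxa] at this
          exact Sum.inl_injective this
        have h6 : Fin.succAbove ⟨k, by omega⟩ v = q := by
          have : ins (W := W) ⟨k, by omega⟩ (x b j) = Sum.inl q := hq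
          rw [hxb] at this
          exact Sum.inl_injective this
        refine ho a b i j u v hxa hxb ?_
        rw [← h5, ← h6] at hpq
        exact (Fin.strictMono_succAbove _).lt_iff_lt.1 hpq
      · have h5 : Fin.succAbove ⟨k, by omega⟩ u = p := by
          have : ins (W := W) ⟨k, by omega⟩ (x a i) = Sum.inl p := hp
          rw [hxa] at this
          exact Sum.inl_injective this
        have h6 : (⟨k, by omega⟩ : Fin (n + 1)) = q := by
          have : ins (W := W) ⟨k, by omega⟩ (x b j) = Sum.inl q := hq
          rw [hxb] at this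
          exact Sum.inl_injective this
        refine (hk a b i j u hxa hxb).2 ?_
        rw [← h5, ← h6] at hpq
        by_contra h7
        rw [Fin.succAbove_of_le_castSucc] at hpq
        · rw [Fin.lt_def] at hpq
          simp only [Fin.val_succ] at hpq
          omega
        · rw [Fin.le_def]
          simp only [Fin.val_castSucc]
          omega
      · have : ins (W := W) ⟨k, by omega⟩ (x b j) = Sum.inl q := hq
        rw [hxb] at this
        cases this
    · rcases hxb : x b j with v | _ | v
      · have h5 : (⟨k, by omega⟩ : Fin (n + 1)) = p := by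
          have : ins (W := W) ⟨k, by omega⟩ (x a i) = Sum.inl p := hp
          rw [hxa] at this
          exact Sum.inl_injective this
        have h6 : Fin.succAbove ⟨k, by omega⟩ v = q := by
          have : ins (W := W) ⟨k, by omega⟩ (x b j) = Sum.inl q := hq
          rw [hxb] at this
          exact Sum.inl_injective this
        rw [← h5, ← h6] at hpq
        have h7 : ¬ ((v : ℕ) < k) := by
          intro h7
          rw [Fin.succAbove_of_castSucc_lt] at hpq
          · rw [Fin.lt_def] at hpq
            simp only [Fin.val_castSucc] at hpq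
            omega
          · rw [Fin.lt_def]
            simp only [Fin.val_castSucc]
            omega
        have h8 : ¬ (t b j < t a i) := fun h8 => h7 ((hk b a j i v hxb hxa).1 h8)
        refine lt_of_le_of_ne (not_lt.1 h8) fun h9 => ?_
        have := (hx a b i j).2 h9
        rw [hxa, hxb] at this
        cases this
      · have h5 : (⟨k, by omega⟩ : Fin (n + 1)) = p := by
          have : ins (W := W) ⟨k, by omega⟩ (x a i) = Sum.inl p := hp
          rw [hxa] at this
          exact Sum.inl_injective this
        have h6 : (⟨k, by omega⟩ : Fin (n + 1)) = q := by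
          have : ins (W := W) ⟨k, by omega⟩ (x b j) = Sum.inl q := hq
          rw [hxb] at this
          exact Sum.inl_injective this
        rw [← h5, ← h6] at hpq
        exact absurd hpq (lt_irrefl _)
      · have : ins (W := W) ⟨k, by omega⟩ (x b j) = Sum.inl q := hq
        rw [hxb] at this
        cases this
    · have : ins (W := W) ⟨k, by omega⟩ (x a i) = Sum.inl p := hp
      rw [hxa] at this
      cases this

end Pool.Agent.R617.LH
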