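import Pool.Agent.R617.LH.Opt

/-!
# Stable structures interpretable in the order of the rationals
-/

set_option autoImplicit false

namespace Pool.Agent.R617.LH

open FirstOrder FirstOrder.Language

instance ratOrdered : Language.order.OrderedStructure ℚ := ⟨fun _ => Iff.rfl⟩

theorem rat_hom : Language.order.IsUltrahomogeneous ℚ :=
  (isFraisseLimit_of_countable_nonempty_dlo ℚ).ultrahomogeneous

theorem relMap_le (R : Language.order.Relations 2) (x : Fin 2 → ℚ) :
    Structure.RelMap R x ↔ x 0 ≤ x 1 := by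
  rw [order.relation_eq_leSymb R]
  have : x = ![x 0, x 1] := by
    funext i
    fin_cases i <;> rfl
  conv_lhs => rw [this]
  exact Iff.rfl

/-- Order-isomorphic families are conjugate. -/
theorem rat_aut {V : Type} [Finite V] (ν ν' : V → ℚ) (h : ∀ u v, ν u < ν v ↔ ν' u < ν' v) :
    ∃ g : ℚ ≃[Language.order] ℚ, ∀ v, g (ν v) = ν' v := by
  have hle : ∀ u v, ν u ≤ ν v ↔ ν' u ≤ ν' v := fun u v => by
    rw [← not_lt, ← not_lt, h]
  apply TC.exists_equiv rat_hom
  refine ⟨fun i j => ?_, ?_⟩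
  · rw [le_antisymm_iff, le_antisymm_iff, hle, hle]
  · intro k R f
    revert f
    cases R
    intro f
    have h1 := relMap_le leSymb fun i => ν (f i)
    have h2 := relMap_le leSymb fun i => ν' (f i)
    exact h1.trans ((hle (f 0) (f 1)).trans h2.symm)

theorem def_inv {α : Type} {S : Set (α → ℚ)} (hS : (∅ : Set ℚ).Definable Language.order S)
    (g : ℚ ≃[Language.order] ℚ) (v : α → ℚ) : (fun i => g (v i)) ∈ S ↔ v ∈ S := by
  rw [Set.empty_definable_iff] at hS
  obtain ⟨φ, rfl⟩ := hS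
  exact StrongHomClass.realize_formula g φ

theorem def_empty {α : Type} [Finite α] (S : Set (α → ℕ))
    (hS : ∀ v w : α → ℕ, (∀ i j, v i = v j ↔ w i = w j) → v ∈ S → w ∈ S) :
    (∅ : Set ℕ).Definable Language.empty S := by
  classical
  rw [Set.empty_definable_iff]
  let Rs : Set (α → α → Prop) := {r | ∃ v ∈ S, ∀ i j, v i = v j ↔ r i j}
  let φ : (α → α → Prop) → Language.empty.Formula α := fun r =>
    Formula.iInf fun p : α × α => if r p.1 p.2 then
      (Term.var p.1 : Language.empty.Term α).equal (Term.var p.2)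
    else ((Term.var p.1 : Language.empty.Term α).equal (Term.var p.2)).not
  have hφ : ∀ r (v : α → ℕ), (φ r).Realize v ↔ ∀ i j, v i = v j ↔ r i j := by
    intro r v
    show (Formula.iInf _).Realize v ↔ _
    rw [Formula.realize_iInf]
    constructor
    · intro h1 i j
      have h2 := h1 (i, j)
      by_cases h3 : r i j
      · rw [if_pos h3, Formula.realize_equal] at h2
        exact ⟨fun _ => h3, fun _ => h2⟩
      · rw [if_neg h3, Formula.realize_not, Formula.realize_equal] at h2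
        exact ⟨fun h4 => absurd h4 h2, fun h4 => absurd h4 h3⟩
    · intro h1 p
      by_cases h3 : r p.1 p.2
      · rw [if_pos h3, Formula.realize_equal]
        exact (h1 p.1 p.2).2 h3
      · rw [if_neg h3, Formula.realize_not, Formula.realize_equal]
        exact fun h4 => h3 ((h1 p.1 p.2).1 h4)
  refine ⟨Formula.iSup fun r : Rs => φ r.1, ?_⟩
  ext v
  show v ∈ S ↔ (Formula.iSup fun r : Rs => φ r.1).Realize v
  rw [Formula.realize_iSup]
  constructor
  · intro hv
    exact ⟨⟨fun i j => v i = v j, v, hv, fun _ _ => Iff.rfl⟩, (hφ _ _).2 fun _ _ => Iff.rfl⟩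
  · rintro ⟨⟨r, w, hw, h1⟩, h2⟩
    have h3 := (hφ r v).1 h2
    exact hS w v (fun i j => (h1 i j).trans (h3 i j).symm) hw

section

set_option linter.unusedSectionVars false

variable {L : FirstOrder.Language.{0, 0}} [L.IsRelational] {A : Type} [L.Structure A]
  (I : Interpretation Language.order ℚ L A)

theorem dom_inv (g : ℚ ≃[Language.order] ℚ) (t : Fin I.dim → ℚ) :
    (fun i => g (t i)) ∈ I.dom ↔ t ∈ I.dom := def_inv I.definable_dom g t

theorem eq_inv (g : ℚ ≃[Language.order] ℚ) {s t : Fin I.dim → ℚ} (hs : s ∈ I.dom) (ht : t ∈ I.dom)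
    (h : I.map ⟨s, hs⟩ = I.map ⟨t, ht⟩) :
    I.map ⟨_, (dom_inv I g s).2 hs⟩ = I.map ⟨_, (dom_inv I g t).2 ht⟩ := by
  have h1 := (def_inv I.definable_eq g fun p : Fin 2 × Fin I.dim => (![s, t] p.1) p.2).2
    ⟨fun i => by fin_cases i; exacts [hs, ht], h⟩
  obtain ⟨h2, h3⟩ := h1
  exact h3

theorem rel_inv (g : ℚ ≃[Language.order] ℚ) {n : ℕ} (R : L.Relations n) (t : Fin n → Fin I.dim → ℚ)
    (ht : ∀ i, t i ∈ I.dom) :
    Structure.RelMap R (fun i => I.map ⟨fun j => g (t i j), (dom_inv I g (t i)).2 (ht i)⟩) ↔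
      Structure.RelMap R fun i => I.map ⟨t i, ht i⟩ := by
  have h1 := def_inv (I.definable_rel R) g fun p : Fin n × Fin I.dim => t p.1 p.2
  constructor
  · intro h2
    obtain ⟨h3, h4⟩ := h1.1 ⟨fun i => (dom_inv I g (t i)).2 (ht i), h2⟩
    exact h4
  · intro h2
    obtain ⟨h3, h4⟩ := h1.2 ⟨ht, h2⟩
    exact h4

/-- A representative. -/
noncomputable def rep' (a : A) : I.dom := (I.surjective a).choose

theorem map_rep' (a : A) : I.map (rep' I a) = a := (I.surjective a).choose_spec

/-- The map induced by an automorphism. -/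
noncomputable def gmap (g : ℚ ≃[Language.order] ℚ) (a : A) : A :=
  I.map ⟨fun i => g ((rep' I a).1 i), (dom_inv I g _).2 (rep' I a).2⟩

theorem gmap_map (g : ℚ ≃[Language.order] ℚ) (t : Fin I.dim → ℚ) (ht : t ∈ I.dom) :
    gmap I g (I.map ⟨t, ht⟩) = I.map ⟨fun i => g (t i), (dom_inv I g t).2 ht⟩ :=
  eq_inv I g (rep' I (I.map ⟨t, ht⟩)).2 ht (map_rep' I _)

theorem gmap_gmap (g g' : ℚ ≃[Language.order] ℚ) (h : ∀ q, g' (g q) = q) (a : A) :
    gmap I g' (gmap I g a) = a := by
  have h1 : gmap I g a = I.map ⟨fun i => g ((rep' I a).1 i), (dom_inv I g _).2 (rep' I a).2⟩ := rfl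
  rw [h1, gmap_map]
  have h2 : (fun i => g' (g ((rep' I a).1 i))) = (rep' I a).1 := funext fun i => h _
  have h3 : ∀ (s : Fin I.dim → ℚ) (hs : s ∈ I.dom), s = (rep' I a).1 → I.map ⟨s, hs⟩ = a := by
    intro s hs hsa
    subst hsa
    exact map_rep' I a
  exact h3 _ _ h2

/-- The automorphism induced by an automorphism. -/
noncomputable def gaut (g : ℚ ≃[Language.order] ℚ) : A ≃[L] A where
  toFun := gmap I g
  invFun := gmap I g.symm
  left_inv := gmap_gmap I g g.symm fun q => g.symm_apply_apply q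
  right_inv := gmap_gmap I g.symm g fun q => g.apply_symm_apply q
  map_fun' := fun f => isEmptyElim f
  map_rel' := by
    intro n R x
    have h1 := rel_inv I g R (fun i => (rep' I (x i)).1) fun i => (rep' I (x i)).2
    have h2 : (fun i => I.map ⟨(rep' I (x i)).1, (rep' I (x i)).2⟩) = x :=
      funext fun i => map_rep' I (x i)
    rw [h2] at h1
    exact h1

theorem tpEq_of_lt {κ : Type} [Finite κ] (t t' : κ → Fin I.dim → ℚ) (ht : ∀ a, t a ∈ I.dom)
    (ht' : ∀ a, t' a ∈ I.dom) (h : ∀ a b i j, t a i < t b j ↔ t' a i < t' b j) :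
    TpEq L (fun a => I.map ⟨t a, ht a⟩) (fun a => I.map ⟨t' a, ht' a⟩) := by
  obtain ⟨g, hg⟩ := rat_aut (fun p : κ × Fin I.dim => t p.1 p.2) (fun p => t' p.1 p.2)
    (fun u v => h u.1 v.1 u.2 v.2)
  intro φ
  have h1 := StrongHomClass.realize_formula (gaut I g) φ (v := fun a => I.map ⟨t a, ht a⟩)
  rw [← h1]
  have h2 : (gaut I g ∘ fun a => I.map ⟨t a, ht a⟩) = fun a => I.map ⟨t' a, ht' a⟩ := by
    funext a
    show gmap I g (I.map ⟨t a, ht a⟩) = _
    rw [gmap_map]
    congr 1
    apply Subtype.ext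
    funext i
    exact hg (a, i)
  rw [h2]

theorem finTypes (I : Interpretation Language.order ℚ L A) : FinTypes L A := by
  classical
  intro ι _
  let Q : Type := (ι × Fin I.dim) → (ι × Fin I.dim) → Prop
  obtain ⟨q, ⟨e⟩⟩ := Finite.exists_equiv_fin Q
  refine ⟨q, fun a => e fun u v => (rep' I (a u.1)).1 u.2 < (rep' I (a v.1)).1 v.2, ?_⟩
  intro a b hab
  have h1 := e.injective hab
  have h2 := tpEq_of_lt I (fun i => (rep' I (a i)).1) (fun i => (rep' I (b i)).1)
    (fun i => (rep' I (a i)).2) (fun i => (rep' I (b i)).2)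
    (fun i i' j j' => iff_of_eq (congrFun (congrFun h1 (i, j)) (i', j')))
  have h3 : (fun i => I.map ⟨(rep' I (a i)).1, (rep' I (a i)).2⟩) = a :=
    funext fun i => map_rep' I (a i)
  have h4 : (fun i => I.map ⟨(rep' I (b i)).1, (rep' I (b i)).2⟩) = b :=
    funext fun i => map_rep' I (b i)
  rwa [h3, h4] at h2

open Classical in
/-- The family of all elements. -/
noncomputable def fam (t : Fin I.dim → ℚ) : Option A :=
  if ht : t ∈ I.dom then some (I.map ⟨t, ht⟩) else none

theorem fam_of {t : Fin I.dim → ℚ} (ht : t ∈ I.dom) : fam I t = some (I.map ⟨t, ht⟩) := dif_pos ht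

theorem fam_none {t : Fin I.dim → ℚ} (ht : t ∉ I.dom) : fam I t = none := dif_neg ht

theorem ordInv (hs : IsStable L A) : OrdInv (oTS (finTypes I) hs) (fam I) := by
  intro κ _ t t' h
  have hd : ∀ a, t a ∈ I.dom ↔ t' a ∈ I.dom := by
    intro a
    obtain ⟨g, hg⟩ := rat_aut (fun i : Fin I.dim => t a i) (fun i => t' a i)
      (fun u v => h a a u v)
    rw [← dom_inv I g (t a)]
    have : (fun i => g (t a i)) = t' a := funext hg
    rw [this]
  refine ⟨fun a => ?_, ?_⟩
  · by_cases ha : t a ∈ I.dom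
    · show fam I (t a) = none ↔ fam I (t' a) = none
      rw [fam_of I ha, fam_of I ((hd a).1 ha)]
      simp
    · show fam I (t a) = none ↔ fam I (t' a) = none
      rw [fam_none I ha, fam_none I fun h1 => ha ((hd a).2 h1)]
  · intro κ' _ s u v hu hv
    have h1 : ∀ k, t (s k) ∈ I.dom := by
      intro k
      by_contra h2
      have h3 : fam I (t (s k)) = some (u k) := hu k
      rw [fam_none I h2] at h3
      cases h3
    have h2 : ∀ k, t' (s k) ∈ I.dom := fun k => (hd (s k)).1 (h1 k)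
    have h3 := tpEq_of_lt I (fun k => t (s k)) (fun k => t' (s k)) h1 h2
      (fun a b i j => h (s a) (s b) i j)
    have h4 : (fun k => I.map ⟨t (s k), h1 k⟩) = u := by
      funext k
      have h5 : fam I (t (s k)) = some (u k) := hu k
      rw [fam_of I (h1 k)] at h5
      exact Option.some_injective _ h5
    have h6 : (fun k => I.map ⟨t' (s k), h2 k⟩) = v := by
      funext k
      have h5 : fam I (t' (s k)) = some (v k) := hv k
      rw [fam_of I (h2 k)] at h5
      exact Option.some_injective _ h5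
    rwa [h4, h6] at h3

/-- Words with patterns. -/
def Wd : Type := {z : (Fin I.dim → ℕ) × Pat I.dim //
  ∃ t ∈ I.dom, (∀ i j, z.1 i = z.1 j ↔ t i = t j) ∧ pat t = z.2}

instance wdStructure : L.Structure (Wd I) where
  funMap := fun f => isEmptyElim f
  RelMap := fun {n} R b => ∃ t : Fin n → Fin I.dim → ℚ,
    (∀ a a' i j, (b a).1.1 i = (b a').1.1 j ↔ t a i = t a' j) ∧ (∀ a, pat (t a) = (b a).1.2) ∧
      ∃ h : ∀ a, t a ∈ I.dom, Structure.RelMap R fun a => I.map ⟨t a, h a⟩

theorem wd_rel {n : ℕ} (R : L.Relations n) (b : Fin n → Wd I) :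
    Structure.RelMap R b ↔ ∃ t : Fin n → Fin I.dim → ℚ,
      (∀ a a' i j, (b a).1.1 i = (b a').1.1 j ↔ t a i = t a' j) ∧ (∀ a, pat (t a) = (b a).1.2) ∧
        ∃ h : ∀ a, t a ∈ I.dom, Structure.RelMap R fun a => I.map ⟨t a, h a⟩ := Iff.rfl

/-- The embedding into the words. -/
noncomputable def toWd : A →[L] Wd I where
  toFun := fun a => ⟨(fun i => Denumerable.eqv ℚ ((rep' I a).1 i), pat (rep' I a).1),
    (rep' I a).1, (rep' I a).2, fun i j => (Denumerable.eqv ℚ).injective.eq_iff, rfl⟩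
  map_fun' := fun f => isEmptyElim f
  map_rel' := by
    intro n R x hx
    rw [wd_rel]
    refine ⟨fun a => (rep' I (x a)).1, fun a a' i j => (Denumerable.eqv ℚ).injective.eq_iff,
      fun a => rfl, fun a => (rep' I (x a)).2, ?_⟩
    have h2 : (fun i => I.map ⟨(rep' I (x i)).1, (rep' I (x i)).2⟩) = x :=
      funext fun i => map_rep' I (x i)
    rw [h2]
    exact hx

theorem exists_hom (hs : IsStable L A) : Nonempty (Wd I →[L] A) := by
  obtain ⟨F, hF⟩ := words (ordInv I hs)
  have h1 : ∀ b : Wd I, ∃ a : A, F b.1 = some a := by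
    rintro ⟨⟨x, p⟩, t, ht, h2, h3⟩
    have h4 := (hF Unit (fun _ => x) (fun _ => t) (fun _ _ i j => h2 i j)).1 ()
    have h5 : F (x, pat t) = none ↔ fam I t = none := h4
    rw [fam_of I ht, show pat t = p from h3] at h5
    apply Option.ne_none_iff_exists'.1
    intro h6
    exact absurd (h5.1 h6) (by simp)
  choose f hf using h1
  refine ⟨⟨f, fun f => isEmptyElim f, ?_⟩⟩
  intro n R b hb
  rw [wd_rel] at hb
  obtain ⟨t, h2, h3, h4, h5⟩ := hb
  have h6 := (hF (Fin n) (fun a => (b a).1.1) t h2).2 (Fin n) id (fun a => f (b a))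
    (fun a => I.map ⟨t a, h4 a⟩) ?_ ?_
  · exact (h6.rel R id).2 h5
  · intro k
    show F ((b k).1.1, pat (t k)) = some (f (b k))
    rw [h3 k]
    exact hf (b k)
  · intro k
    exact fam_of I (h4 k)

/-- The letters and the pattern coded by a tuple of natural numbers. -/
def dec {d : ℕ} (v : Fin d ⊕ (Fin d × Fin d) ⊕ Unit → ℕ) : (Fin d → ℕ) × Pat d :=
  (fun i => v (Sum.inl i), fun i j => decide (v (Sum.inr (Sum.inl (i, j))) =
    v (Sum.inr (Sum.inr ()))))

theorem dec_pat {d : ℕ} {v w : Fin d ⊕ (Fin d × Fin d) ⊕ Unit → ℕ}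
    (h : ∀ i j, v i = v j ↔ w i = w j) : (dec v).2 = (dec w).2 := by
  funext i j
  exact decide_eq_decide.2 (h _ _)

theorem exists_code (d : ℕ) : ∃ (D : ℕ), Nonempty (Fin D ≃ Fin d ⊕ (Fin d × Fin d) ⊕ Unit) := by
  obtain ⟨D, ⟨e⟩⟩ := Finite.exists_equiv_fin (Fin d ⊕ (Fin d × Fin d) ⊕ Unit)
  exact ⟨D, ⟨e.symm⟩⟩

include I in
theorem wd_interp : Nonempty (Interpretation Language.empty ℕ L (Wd I)) := by
  classical
  obtain ⟨D, ⟨e⟩⟩ := exists_code I.dim
  let c : (Fin D → ℕ) → (Fin I.dim → ℕ) × Pat I.dim := fun v => dec (v ∘ e.symm)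
  let P : (Fin I.dim → ℕ) × Pat I.dim → Prop := fun z =>
    ∃ t ∈ I.dom, (∀ i j, z.1 i = z.1 j ↔ t i = t j) ∧ pat t = z.2
  have hP : ∀ v w : Fin D → ℕ, (∀ i j, v i = v j ↔ w i = w j) → P (c v) → P (c w) := by
    rintro v w h ⟨t, ht, h1, h2⟩
    refine ⟨t, ht, fun i j => ?_, ?_⟩
    · rw [← h1]
      exact (h _ _).symm
    · rw [h2]
      exact dec_pat fun i j => h _ _
  refine ⟨{
    dim := D
    dom := {v | P (c v)}
    map := fun v => ⟨c v.1, v.2⟩
    surjective := ?_
    definable_dom := ?_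
    definable_eq := ?_
    definable_rel := ?_ }⟩
  · rintro ⟨⟨x, p⟩, hz⟩
    let v : Fin D → ℕ := fun k => Sum.elim x
      (Sum.elim (fun ij => if p ij.1 ij.2 = true then 0 else 1) fun _ => 0) (e k)
    have hv : c v = (x, p) := by
      refine Prod.ext ?_ ?_
      · funext i
        show v (e.symm (Sum.inl i)) = x i
        show Sum.elim _ _ (e (e.symm (Sum.inl i))) = x i
        rw [e.apply_symm_apply]
        rfl
      · funext i j
        show decide (v (e.symm (Sum.inr (Sum.inl (i, j)))) = v (e.symm (Sum.inr (Sum.inr ())))) =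
          p i j
        have h1 : v (e.symm (Sum.inr (Sum.inl (i, j)))) = if p i j = true then 0 else 1 := by
          show Sum.elim _ _ (e (e.symm (Sum.inr (Sum.inl (i, j))))) = _
          rw [e.apply_symm_apply]
          rfl
        have h2 : v (e.symm (Sum.inr (Sum.inr ()))) = 0 := by
          show Sum.elim _ _ (e (e.symm (Sum.inr (Sum.inr ())))) = _
          rw [e.apply_symm_apply]
          rfl
        rw [h1, h2]
        cases p i j <;> simp
    refine ⟨⟨v, ?_⟩, ?_⟩
    · show P (c v)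
      rw [hv]
      exact hz
    · exact Subtype.ext hv
  · exact def_empty _ hP
  · apply def_empty
    rintro v w h ⟨h1, h2⟩
    have h3 : ∀ k, P (c fun j => w (k, j)) := fun k =>
      hP (fun j => v (k, j)) _ (fun i j => h _ _) (h1 k)
    refine ⟨h3, Subtype.ext ?_⟩
    have h4 : c (fun j => v (0, j)) = c (fun j => v (1, j)) := congrArg Subtype.val h2
    refine Prod.ext ?_ ?_
    · funext i
      exact (h _ _).1 (congrFun (congrArg Prod.fst h4) i)
    · have h5 : (c fun j => v (0, j)).2 = (c fun j => v (1, j)).2 := congrArg Prod.snd h4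
      have h6 : (c fun j => v (0, j)).2 = (c fun j => w (0, j)).2 := dec_pat fun i j => h _ _
      have h7 : (c fun j => v (1, j)).2 = (c fun j => w (1, j)).2 := dec_pat fun i j => h _ _
      exact h6.symm.trans (h5.trans h7)
  · intro n R
    apply def_empty
    rintro v w h ⟨h1, h2⟩
    have h3 : ∀ k, P (c fun j => w (k, j)) := fun k =>
      hP (fun j => v (k, j)) _ (fun i j => h _ _) (h1 k)
    refine ⟨h3, ?_⟩
    obtain ⟨t, h4, h5, h6⟩ :=
      (wd_rel I R fun k => (⟨c fun j => v (k, j), h1 k⟩ : Wd I)).1 h2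
    refine (wd_rel I R fun k => (⟨c fun j => w (k, j), h3 k⟩ : Wd I)).2
      ⟨t, fun a a' i j => ?_, fun a => ?_, h6⟩
    · exact (h _ _).symm.trans (h4 a a' i j)
    · refine (h5 a).trans ?_
      exact dec_pat fun i j => h _ _

end

end Pool.Agent.R617.LH
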