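import Pool.Agent.R617.LH.Types

/-!
# Types of tuples of optional elements
-/

set_option autoImplicit false

namespace Pool.Agent.R617.LH

open FirstOrder FirstOrder.Language

variable {L : FirstOrder.Language.{0, 0}} {A : Type} [L.Structure A]

/-- Types of tuples with undefined entries. -/
def OEq (L : FirstOrder.Language.{0, 0}) {A : Type} [L.Structure A] {ι : Type}
    (a b : ι → Option A) : Prop :=
  (∀ i, a i = none ↔ b i = none) ∧ ∀ (κ : Type) [Finite κ] (s : κ → ι) (u v : κ → A),
    (∀ k, a (s k) = some (u k)) → (∀ k, b (s k) = some (v k)) → TpEq L u v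

theorem OEq.refl {ι : Type} (a : ι → Option A) : OEq L a a := by
  refine ⟨fun _ => Iff.rfl, fun κ _ s u v hu hv => ?_⟩
  have : u = v := by
    funext k
    exact Option.some_injective _ ((hu k).symm.trans (hv k))
  rw [this]
  exact TpEq.refl v

theorem OEq.symm {ι : Type} {a b : ι → Option A} (h : OEq L a b) : OEq L b a :=
  ⟨fun i => (h.1 i).symm, fun κ _ s u v hu hv => (h.2 κ s v u hv hu).symm⟩

theorem OEq.trans {ι : Type} {a b c : ι → Option A} (h : OEq L a b) (h' : OEq L b c) :
    OEq L a c := by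
  refine ⟨fun i => (h.1 i).trans (h'.1 i), fun κ _ s u w hu hw => ?_⟩
  have h1 : ∀ k, ∃ v : A, b (s k) = some v := by
    intro k
    have h2 : a (s k) ≠ none := by
      rw [hu]
      simp
    have h3 : b (s k) ≠ none := fun h4 => h2 ((h.1 _).2 h4)
    exact Option.ne_none_iff_exists'.1 h3
  choose v hv using h1
  exact (h.2 κ s u v hu hv).trans (h'.2 κ s v w hv hw)

theorem OEq.comp {ι κ : Type} {a b : ι → Option A} (s : κ → ι) (h : OEq L a b) :
    OEq L (a ∘ s) (b ∘ s) :=
  ⟨fun i => h.1 (s i), fun κ' _ s' u v hu hv => h.2 κ' (s ∘ s') u v hu hv⟩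

theorem oExtend (hf : FinTypes L A) {ι κ : Type} [Finite ι] [Finite κ] (g : ι → κ)
    (c : κ → Option A) (b : ι → Option A) (h : OEq L (c ∘ g) b) :
    ∃ c' : κ → Option A, OEq L c c' ∧ ∀ i, c' (g i) = b i := by
  classical
  have h1 : ∀ k : {k // c k ≠ none}, ∃ u : A, c k = some u := fun k =>
    Option.ne_none_iff_exists'.1 k.2
  choose u hu using h1
  have h2 : ∀ i : {i // c (g i) ≠ none}, ∃ v : A, b i = some v := fun i =>
    Option.ne_none_iff_exists'.1 fun h3 => i.2 ((h.1 i).2 h3)
  choose v hv using h2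
  let g' : {i // c (g i) ≠ none} → {k // c k ≠ none} := fun i => ⟨g i, i.2⟩
  obtain ⟨u', h3, h4⟩ := extend (L := L) hf g' u v
    (h.2 {i // c (g i) ≠ none} (fun i => i.1) (u ∘ g') v (fun i => hu (g' i)) hv)
  let c' : κ → Option A := fun k => if hk : c k ≠ none then some (u' ⟨k, hk⟩) else none
  have hc' : ∀ (k) (hk : c k ≠ none), c' k = some (u' ⟨k, hk⟩) := fun k hk => dif_pos hk
  have hc'' : ∀ k, c k = none → c' k = none := fun k hk => dif_neg (not_not.2 hk)
  refine ⟨c', ⟨fun k => ⟨hc'' k, fun h5 => ?_⟩, ?_⟩, ?_⟩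
  · by_contra h6
    rw [hc' k h6] at h5
    cases h5
  · intro κ' _ s p q hp hq
    have h5 : ∀ k, c (s k) ≠ none := fun k => by
      rw [hp]
      simp
    have h6 := h3.comp (fun k : κ' => (⟨s k, h5 k⟩ : {k // c k ≠ none}))
    have h7 : (u ∘ fun k : κ' => (⟨s k, h5 k⟩ : {k // c k ≠ none})) = p := by
      funext k
      exact Option.some_injective _ ((hu ⟨s k, h5 k⟩).symm.trans (hp k))
    have h8 : (u' ∘ fun k : κ' => (⟨s k, h5 k⟩ : {k // c k ≠ none})) = q := by
      funext k
      exact Option.some_injective _ ((hc' _ (h5 k)).symm.trans (hq k))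
    rwa [h7, h8] at h6
  · intro i
    by_cases h5 : c (g i) = none
    · rw [hc'' _ h5]
      exact ((h.1 i).1 h5).symm
    · rw [hc' _ h5, hv ⟨i, h5⟩]
      congr 1
      exact h4 ⟨i, h5⟩

theorem oFin (hf : FinTypes L A) (ι : Type) [Finite ι] :
    ∃ (q : ℕ) (τ : (ι → Option A) → Fin q), ∀ a b, τ a = τ b → OEq L a b := by
  classical
  have := Fintype.ofFinite ι
  choose q τ hτ using fun S : Set ι => hf S
  let Q : Type := Σ S : Set ι, Option (Fin (q S))
  let σ : (ι → Option A) → Q := fun a =>
    ⟨{i | a i ≠ none}, some (τ _ fun i => (a i.1).get (Option.isSome_iff_ne_none.2 i.2))⟩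
  have hσ : ∀ a b, σ a = σ b → OEq L a b := by
    intro a b hab
    have h1 : {i | a i ≠ none} = {i | b i ≠ none} := congrArg Sigma.fst hab
    have hset : ∀ i, a i = none ↔ b i = none := by
      intro i
      have h2 : i ∈ {i | a i ≠ none} ↔ i ∈ {i | b i ≠ none} := by rw [h1]
      exact not_iff_not.1 h2
    have key : ∀ (S S' : Set ι) (hS : S = S') (u : S → A) (v : S' → A),
        (⟨S, some (τ S u)⟩ : Q) = ⟨S', some (τ S' v)⟩ →
        TpEq L u (fun i => v ⟨i.1, hS ▸ i.2⟩) := by
      intro S S' hS u v huv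
      subst hS
      have h3 : (some (τ S u) : Option (Fin (q S))) = some (τ S v) := by
        exact eq_of_heq (Sigma.mk.inj_iff.1 huv).2
      exact hτ S u v (Option.some_injective _ h3)
    have h2 := key _ _ h1 _ _ hab
    refine ⟨hset, fun κ _ s u v hu hv => ?_⟩
    have h5 : ∀ k, s k ∈ {i | a i ≠ none} := fun k => by
      show a (s k) ≠ none
      rw [hu]
      simp
    have h6 := h2.comp (fun k : κ => (⟨s k, h5 k⟩ : {i // i ∈ {i | a i ≠ none}}))
    have h7 : ((fun i : {i // i ∈ {i | a i ≠ none}} =>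
        (a i.1).get (Option.isSome_iff_ne_none.2 i.2)) ∘
        fun k : κ => (⟨s k, h5 k⟩ : {i // i ∈ {i | a i ≠ none}})) = u := by
      funext k
      show (a (s k)).get _ = u k
      exact Option.get_of_eq_some _ (hu k)
    rw [h7] at h6
    refine h6.trans ?_
    have h8 : ((fun i : {i // i ∈ {i | a i ≠ none}} => (fun i : {i // i ∈ {i | b i ≠ none}} =>
        (b i.1).get (Option.isSome_iff_ne_none.2 i.2)) ⟨i.1, h1 ▸ i.2⟩) ∘
        fun k : κ => (⟨s k, h5 k⟩ : {i // i ∈ {i | a i ≠ none}})) = v := by
      funext k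
      show (b (s k)).get _ = v k
      exact Option.get_of_eq_some _ (hv k)
    rw [← h8]
    exact TpEq.refl _
  have hQ : Finite Q := inferInstance
  obtain ⟨n, ⟨e⟩⟩ := Finite.exists_equiv_fin Q
  exact ⟨n, fun a => e (σ a), fun a b hab => hσ a b (e.injective hab)⟩

theorem oSwap (hf : FinTypes L A) (hs : IsStable L A) (ι : Type) [Finite ι] :
    ∃ N : ℕ, 2 ≤ N ∧ ∀ c : Fin N → ι → Option A,
      (∀ i j i' j', i < j → i' < j' →
        OEq L (Sum.elim (c i) (c j)) (Sum.elim (c i') (c j'))) →
      ∀ i j, i < j → OEq L (Sum.elim (c i) (c j)) (Sum.elim (c j) (c i)) := by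
  classical
  have := Fintype.ofFinite ι
  choose nn hnn using fun S : Set ι => swapping hf hs S
  obtain ⟨M, hM⟩ := (Set.finite_range nn).bddAbove
  have hM' : ∀ S, nn S ≤ M := fun S => hM ⟨S, rfl⟩
  refine ⟨M + 3, by omega, fun c hc => ?_⟩
  -- all patterns are the same
  have hpat0 : ∀ (j : Fin (M + 3)) (l : ι), c j l = none ↔ c 0 l = none := by
    intro j l
    by_cases hj : (j : ℕ) = 0
    · have : j = 0 := Fin.ext hj
      rw [this]
    · have h0j : (0 : Fin (M + 3)) < j := by
        rw [Fin.lt_def]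
        exact Nat.pos_of_ne_zero hj
      have h01 : (0 : Fin (M + 3)) < ⟨1, by omega⟩ := by
        rw [Fin.lt_def]
        exact Nat.zero_lt_one
      have h12 : (⟨1, by omega⟩ : Fin (M + 3)) < ⟨2, by omega⟩ := by
        rw [Fin.lt_def]
        exact Nat.one_lt_two
      have h1 := (hc 0 j 0 ⟨1, by omega⟩ h0j h01).1 (Sum.inr l)
      have h2 := (hc 0 ⟨1, by omega⟩ ⟨1, by omega⟩ ⟨2, by omega⟩ h01 h12).1 (Sum.inl l)
      exact h1.trans h2.symm
  let S : Set ι := {l | c 0 l ≠ none}
  have hval : ∀ (j : Fin (M + 3)) (l : S), ∃ a : A, c j l = some a := fun j l =>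
    Option.ne_none_iff_exists'.1 fun h3 => l.2 ((hpat0 j l).1 h3)
  choose w hw using hval
  have hind : ∀ i j i' j', i < j → i' < j' →
      TpEq L (Sum.elim (w i) (w j)) (Sum.elim (w i') (w j')) := by
    intro i j i' j' h1 h2
    refine (hc i j i' j' h1 h2).2 (S ⊕ S) (Sum.map (fun l => l.1) (fun l => l.1)) _ _ ?_ ?_
    · intro k
      rcases k with k | k
      · exact hw i k
      · exact hw j k
    · intro k
      rcases k with k | k
      · exact hw i' k
      · exact hw j' k
  have hsw := hnn S (M + 3) ((hM' S).trans (by omega)) w hind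
  intro i j hij
  refine ⟨?_, ?_⟩
  · intro k
    rcases k with k | k
    · exact (hpat0 i k).trans (hpat0 j k).symm
    · exact (hpat0 j k).trans (hpat0 i k).symm
  · intro κ _ s u v hu hv
    have h1 : ∀ k, ∃ z : S ⊕ S, Sum.map (fun l => l.1) (fun l => l.1) z = s k := by
      intro k
      rcases hk : s k with l | l
      · have h2 : c i l ≠ none := by
          have := hu k
          rw [hk] at this
          intro h3
          have h4 : c i l = some (u k) := this
          rw [h3] at h4
          cases h4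
        exact ⟨Sum.inl ⟨l, fun h3 => h2 ((hpat0 i l).2 h3)⟩, rfl⟩
      · have h2 : c j l ≠ none := by
          have := hu k
          rw [hk] at this
          intro h3
          have h4 : c j l = some (u k) := this
          rw [h3] at h4
          cases h4
        exact ⟨Sum.inr ⟨l, fun h3 => h2 ((hpat0 j l).2 h3)⟩, rfl⟩
    choose z hz using h1
    have h2 := (hsw i j hij).comp z
    have h3 : Sum.elim (w i) (w j) ∘ z = u := by
      funext k
      have h4 := hu k
      rw [← hz k] at h4
      show Sum.elim (w i) (w j) (z k) = u k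
      rcases hzk : z k with l | l
      · rw [hzk] at h4
        exact Option.some_injective _ ((hw i l).symm.trans h4)
      · rw [hzk] at h4
        exact Option.some_injective _ ((hw j l).symm.trans h4)
    have h5 : Sum.elim (w j) (w i) ∘ z = v := by
      funext k
      have h4 := hv k
      rw [← hz k] at h4
      show Sum.elim (w j) (w i) (z k) = v k
      rcases hzk : z k with l | l
      · rw [hzk] at h4
        exact Option.some_injective _ ((hw j l).symm.trans h4)
      · rw [hzk] at h4
        exact Option.some_injective _ ((hw i l).symm.trans h4)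
    rwa [h3, h5] at h2

/-- The types of a stable structure with finitely many types. -/
def oTS (hf : FinTypes L A) (hs : IsStable L A) : TS (Option A) where
  E := OEq L
  refl := OEq.refl
  symm := OEq.symm
  trans := OEq.trans
  comp := fun s h => OEq.comp s h
  ext := fun g c b h => oExtend hf g c b h
  fin := fun ι _ => oFin hf ι
  swap := fun ι _ => oSwap hf hs ι

end Pool.Agent.R617.LH
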