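import Pool.Agent.R617.LH.Abs

/-!
# Neighbouring letters can be interchanged
-/

set_option autoImplicit false

namespace Pool.Agent.R617.LH

variable {X : Type} {T : TS X} {d : ℕ} {h : (Fin d → ℚ) → X}

/-- `Fin n` with the letter `k` moved to the place `i`. -/
def eps {n L : ℕ} (k : Fin n) (i : Fin L) : Fin n → Fin (n + L) := fun j =>
  if j < k then ⟨j, by omega⟩ else if j = k then ⟨k + i, by omega⟩ else ⟨j + L - 1, by omega⟩

/-- `Fin (n + 1)` with the letters `k`, `k + 1` moved to the places `i`, `i'`. -/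
def eps2 {n L : ℕ} (k : Fin n) (i i' : Fin L) : Fin (n + 1) → Fin (n + L) := fun j =>
  if (j : ℕ) < k then ⟨min j (n + L - 1), by have := k.2; omega⟩
  else if (j : ℕ) = k then ⟨k + i, by omega⟩
  else if (j : ℕ) = k + 1 then ⟨k + i', by omega⟩
  else ⟨min (j + L - 2) (n + L - 1), by have := k.2; omega⟩

theorem eps2_mono {n L : ℕ} (hL : 2 ≤ L) (k : Fin n) {i i' : Fin L} (hi : i < i') :
    StrictMono (eps2 k i i') := by
  intro a b hab
  have h1 : (a : ℕ) < b := hab
  have h2 : (i : ℕ) < i' := hi
  have ha := a.2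
  have hb := b.2
  have hk := k.2
  have h3 := i'.2
  unfold eps2
  rw [Fin.lt_def]
  split_ifs <;> simp only [] <;> omega

theorem eps2_succ {n L : ℕ} (hL : 2 ≤ L) (k : Fin n) (i i' : Fin L) :
    eps2 k i i' ∘ k.succ.succAbove = eps k i := by
  funext j
  have hj := j.2
  have hk := k.2
  have h3 := i'.2
  have h4 := i.2
  show eps2 k i i' (k.succ.succAbove j) = eps k i j
  by_cases h1 : j < k
  · have h2 : k.succ.succAbove j = j.castSucc := by
      apply Fin.succAbove_of_castSucc_lt
      rw [Fin.lt_def] at h1 ⊢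
      simp only [Fin.val_castSucc, Fin.val_succ]
      omega
    rw [h2]
    unfold eps2 eps
    rw [Fin.lt_def] at h1
    rw [if_pos (by simpa using h1), if_pos (by rw [Fin.lt_def]; exact h1)]
    apply Fin.ext
    simp only [Fin.val_castSucc]
    omega
  · by_cases h5 : j = k
    · subst h5
      have h2 : j.succ.succAbove j = j.castSucc := by
        apply Fin.succAbove_of_castSucc_lt
        rw [Fin.lt_def]
        simp only [Fin.val_castSucc, Fin.val_succ]
        omega
      rw [h2]
      unfold eps2 eps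
      rw [if_neg (by simp), if_pos (by simp), if_neg (by simp), if_pos rfl]
    · have h6 : k < j := lt_of_le_of_ne (not_lt.1 h1) (Ne.symm h5)
      rw [Fin.lt_def] at h6
      have h2 : k.succ.succAbove j = j.succ := by
        apply Fin.succAbove_of_le_castSucc
        rw [Fin.le_def]
        simp only [Fin.val_castSucc, Fin.val_succ]
        omega
      rw [h2]
      unfold eps2 eps
      rw [if_neg (by simp only [Fin.val_succ]; omega), if_neg (by simp only [Fin.val_succ]; omega),
        if_neg (by simp only [Fin.val_succ]; omega), if_neg h1, if_neg h5]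
      apply Fin.ext
      simp only [Fin.val_succ]
      omega

theorem eps2_castSucc {n L : ℕ} (hL : 2 ≤ L) (k : Fin n) (i i' : Fin L) :
    eps2 k i i' ∘ k.castSucc.succAbove = eps k i' := by
  funext j
  have hj := j.2
  have hk := k.2
  have h3 := i'.2
  have h4 := i.2
  show eps2 k i i' (k.castSucc.succAbove j) = eps k i' j
  by_cases h1 : j < k
  · have h2 : k.castSucc.succAbove j = j.castSucc := by
      apply Fin.succAbove_of_castSucc_lt
      exact Fin.castSucc_lt_castSucc_iff.2 h1
    rw [h2]
    unfold eps2 eps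
    rw [Fin.lt_def] at h1
    rw [if_pos (by simpa using h1), if_pos (by rw [Fin.lt_def]; exact h1)]
    apply Fin.ext
    simp only [Fin.val_castSucc]
    omega
  · have h2 : k.castSucc.succAbove j = j.succ := by
      apply Fin.succAbove_of_le_castSucc
      exact Fin.castSucc_le_castSucc_iff.2 (not_lt.1 h1)
    rw [h2]
    by_cases h5 : j = k
    · subst h5
      unfold eps2 eps
      rw [if_neg (by simp only [Fin.val_succ]; omega), if_neg (by simp only [Fin.val_succ]; omega),
        if_pos (by simp only [Fin.val_succ]), if_neg (by simp), if_pos rfl]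
    · have h6 : k < j := lt_of_le_of_ne (not_lt.1 h1) (Ne.symm h5)
      rw [Fin.lt_def] at h6
      unfold eps2 eps
      rw [if_neg (by simp only [Fin.val_succ]; omega), if_neg (by simp only [Fin.val_succ]; omega),
        if_neg (by simp only [Fin.val_succ]; omega), if_neg h1, if_neg h5]
      apply Fin.ext
      simp only [Fin.val_succ]
      omega

/-- A system on `Fin (n + 1)` in which neighbouring letters can be interchanged. -/
theorem exists_swap {W : Type} [Finite W]
    (hS : ∀ n, ∃ F : (Fin d → Fin n ⊕ W) × Pat d → X, Sys T h F) (n : ℕ) :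
    ∃ F : (Fin d → Fin (n + 1) ⊕ W) × Pat d → X, Sys T h F ∧ ∀ k : Fin n,
      T.E (Sum.elim (res F k.succ.succAbove) (res F k.castSucc.succAbove))
        (Sum.elim (res F k.castSucc.succAbove) (res F k.succ.succAbove)) := by
  obtain ⟨L, hL, hsw⟩ := T.swap ((Fin d → Fin n ⊕ W) × Pat d)
  obtain ⟨F, hF, hI⟩ := exists_ind hS (n + L) (n + 1)
  have hle : n + 1 ≤ n + L := by omega
  let e0 : Fin (n + 1) → Fin (n + L) := Fin.castLE hle
  have he0 : StrictMono e0 := Fin.strictMono_castLE hle
  refine ⟨res F e0, sys_res hF e0 he0, fun k => ?_⟩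
  let s : ((Fin d → Fin n ⊕ W) × Pat d) ⊕ ((Fin d → Fin n ⊕ W) × Pat d) →
      (Fin d → Fin (n + 1) ⊕ W) × Pat d :=
    Sum.elim (fun z => (Sum.map k.succ.succAbove id ∘ z.1, z.2))
      (fun z => (Sum.map k.castSucc.succAbove id ∘ z.1, z.2))
  let s' : ((Fin d → Fin n ⊕ W) × Pat d) ⊕ ((Fin d → Fin n ⊕ W) × Pat d) →
      (Fin d → Fin (n + 1) ⊕ W) × Pat d :=
    Sum.elim (fun z => (Sum.map k.castSucc.succAbove id ∘ z.1, z.2))
      (fun z => (Sum.map k.succ.succAbove id ∘ z.1, z.2))
  have hs : ∀ G : (Fin d → Fin (n + 1) ⊕ W) × Pat d → X,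
      Sum.elim (res G k.succ.succAbove) (res G k.castSucc.succAbove) = G ∘ s := by
    intro G
    funext z
    rcases z with z | z <;> rfl
  have hs' : ∀ G : (Fin d → Fin (n + 1) ⊕ W) × Pat d → X,
      Sum.elim (res G k.castSucc.succAbove) (res G k.succ.succAbove) = G ∘ s' := by
    intro G
    funext z
    rcases z with z | z <;> rfl
  have hc : ∀ i j : Fin L, Sum.elim (res F (eps k i)) (res F (eps k j)) =
      res F (eps2 k i j) ∘ s := by
    intro i j
    rw [← hs, res_res, res_res, eps2_succ hL, eps2_castSucc hL]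
  have hc' : ∀ i j : Fin L, Sum.elim (res F (eps k j)) (res F (eps k i)) =
      res F (eps2 k i j) ∘ s' := by
    intro i j
    rw [← hs', res_res, res_res, eps2_succ hL, eps2_castSucc hL]
  have h0 : (⟨0, by omega⟩ : Fin L) < ⟨1, by omega⟩ := by
    rw [Fin.lt_def]
    exact Nat.zero_lt_one
  have h1 := hsw (fun i => res F (eps k i)) (fun i j i' j' hij hij' => by
    show T.E (Sum.elim (res F (eps k i)) (res F (eps k j)))
      (Sum.elim (res F (eps k i')) (res F (eps k j')))
    rw [hc, hc]
    exact T.comp s (hI _ _ (eps2_mono hL k hij) (eps2_mono hL k hij'))) _ _ h0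
  have h2 : T.E (res F (eps2 k ⟨0, by omega⟩ ⟨1, by omega⟩) ∘ s)
      (res F (eps2 k ⟨0, by omega⟩ ⟨1, by omega⟩) ∘ s') := by
    rw [← hc, ← hc']
    exact h1
  rw [hs, hs']
  exact T.trans (T.comp s (hI _ _ he0 (eps2_mono hL k h0)))
    (T.trans h2 (T.comp s' (hI _ _ (eps2_mono hL k h0) he0)))

end Pool.Agent.R617.LH
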