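import Pool.Agent.R617.LH.Insert

/-!
# Arbitrary words on infinitely many letters
-/

set_option autoImplicit false

namespace Pool.Agent.R617.LH

variable {X : Type} {T : TS X} {d : ℕ} {h : (Fin d → ℚ) → X}

theorem sys_equiv {n : ℕ} {W W' : Type} (e : W ≃ W') {F : (Fin d → Fin n ⊕ W) × Pat d → X}
    (hF : Sys T h F) :
    Sys T h (fun z : (Fin d → Fin n ⊕ W') × Pat d => F (Sum.map id e.symm ∘ z.1, z.2)) := by
  intro κ _ x t h1 h2
  have hinj : Function.Injective (Sum.map id e.symm : Fin n ⊕ W' → Fin n ⊕ W) :=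
    Function.Injective.sumMap Function.injective_id e.symm.injective
  refine hF κ (fun a => Sum.map id e.symm ∘ x a) t ?_ ?_
  · intro a b i j
    rw [← h1]
    exact hinj.eq_iff
  · intro a b i j k l hk hl hkl
    refine h2 a b i j k l ?_ ?_ hkl
    · exact hinj (by exact hk)
    · exact hinj (by exact hl)

theorem sys_all (hH : OrdInv T h) (W : Type) [Finite W] :
    ∀ n, ∃ F : (Fin d → Fin n ⊕ W) × Pat d → X, Sys T h F := by
  induction W using Finite.induction_empty_option with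
  | of_equiv e ih =>
    intro n
    obtain ⟨F, hF⟩ := ih n
    exact ⟨_, sys_equiv e hF⟩
  | h_empty =>
    intro n
    refine ⟨fun z => h fun i => Sum.elim (fun j : Fin n => ((j : ℕ) : ℚ)) (fun w => w.elim) (z.1 i),
      ?_⟩
    intro κ _ x t h1 h2
    refine hH κ (fun a i => Sum.elim (fun j : Fin n => ((j : ℕ) : ℚ)) (fun w => w.elim) (x a i)) t ?_
    intro a b i j
    rcases hxa : x a i with u | u
    · rcases hxb : x b j with v | v
      · rw [Sum.elim_inl, Sum.elim_inl, Nat.cast_lt]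
        constructor
        · intro h3
          exact h2 a b i j u v hxa hxb h3
        · intro h3
          by_contra h4
          rcases Nat.lt_or_eq_of_le (not_lt.1 h4) with h5 | h5
          · exact absurd (h2 b a j i v u hxb hxa h5) h3.not_gt
          · have h6 : v = u := Fin.ext h5
            subst h6
            exact absurd ((h1 a b i j).1 (hxa.trans hxb.symm)) h3.ne
      · exact v.elim
    · exact u.elim
  | h_option ih =>
    intro n
    exact step ih n

/-- Words on the letters of a finite set. -/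
theorem fin_words (hH : OrdInv T h) (N : ℕ) : ∃ F : (Fin d → ℕ) × Pat d → X,
    ∀ (κ : Type) [Finite κ] (x : κ → Fin d → ℕ) (t : κ → Fin d → ℚ), (∀ a i, x a i < N) →
      (∀ a b i j, x a i = x b j ↔ t a i = t b j) →
      T.E (fun a => F (x a, pat (t a))) (fun a => h (t a)) := by
  obtain ⟨F, hF⟩ := sys_all hH (Fin (N + 1)) 0
  let clip : ℕ → Fin (N + 1) := fun k => ⟨min k N, by omega⟩
  refine ⟨fun z => F (fun i => Sum.inr (clip (z.1 i)), z.2), ?_⟩
  intro κ _ x t hN h1
  refine hF κ (fun a i => Sum.inr (clip (x a i))) t ?_ ?_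
  · intro a b i j
    rw [← h1]
    constructor
    · intro h2
      have h3 := congrArg Fin.val (Sum.inr_injective h2)
      have h4 : min (x a i) N = min (x b j) N := h3
      have := hN a i
      have := hN b j
      omega
    · intro h2
      show Sum.inr (clip (x a i)) = Sum.inr (clip (x b j))
      rw [h2]
  · intro a b i j k l hk
    cases hk

/-- Words on infinitely many letters. -/
theorem words (hH : OrdInv T h) : ∃ F : (Fin d → ℕ) × Pat d → X,
    ∀ (κ : Type) [Finite κ] (x : κ → Fin d → ℕ) (t : κ → Fin d → ℚ),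
      (∀ a b i j, x a i = x b j ↔ t a i = t b j) →
      T.E (fun a => F (x a, pat (t a))) (fun a => h (t a)) := by
  classical
  choose Φ hΦ using fun N => fin_words (T := T) (h := h) hH N
  -- restriction to the letters below `n`
  let R : ∀ n : ℕ, ((Fin d → ℕ) × Pat d → X) → (Fin d → Fin n) × Pat d → X :=
    fun n F z => F (fun i => (z.1 i : ℕ), z.2)
  let g : ∀ n : ℕ, (Fin d → Fin n) × Pat d → (Fin d → Fin (n + 1)) × Pat d :=
    fun n z => (fun i => (z.1 i).castSucc, z.2)
  have hRg : ∀ n F, R (n + 1) F ∘ g n = R n F := fun n F => rfl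
  choose q τ hτ using fun n : ℕ => T.fin ((Fin d → Fin n) × Pat d)
  let U : Ultrafilter ℕ := Filter.hyperfilter ℕ
  have hc : ∀ n, ∃ c : Fin (q n), ∀ᶠ m in (U : Filter ℕ), τ n (R n (Φ m)) = c := by
    intro n
    obtain ⟨c, hc⟩ := (U.map fun m => τ n (R n (Φ m))).eq_pure_of_finite
    refine ⟨c, ?_⟩
    have h1 : ({c} : Set (Fin (q n))) ∈ U.map fun m => τ n (R n (Φ m)) := by
      rw [hc]
      exact Filter.mem_pure.2 rfl
    exact h1
  choose c hc using hc
  have hstep : ∀ (n : ℕ) (G : (Fin d → Fin n) × Pat d → X),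
      (∀ᶠ m in (U : Filter ℕ), T.E (R n (Φ m)) G) →
      ∃ G' : (Fin d → Fin (n + 1)) × Pat d → X,
        (∀ᶠ m in (U : Filter ℕ), T.E (R (n + 1) (Φ m)) G') ∧ ∀ z, G' (g n z) = G z := by
    intro n G hG
    obtain ⟨m, hm1, hm2⟩ := (hG.and (hc (n + 1))).exists
    obtain ⟨G', h1, h2⟩ := T.ext (g n) (R (n + 1) (Φ m)) G hm1
    refine ⟨G', ?_, h2⟩
    filter_upwards [hc (n + 1)] with m' hm'
    exact T.trans (hτ (n + 1) _ _ (hm'.trans hm2.symm)) h1
  have h0 : ∃ G : (Fin d → Fin 0) × Pat d → X, ∀ᶠ m in (U : Filter ℕ), T.E (R 0 (Φ m)) G := by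
    obtain ⟨m, hm⟩ := (hc 0).exists
    refine ⟨R 0 (Φ m), ?_⟩
    filter_upwards [hc 0] with m' hm'
    exact hτ 0 _ _ (hm'.trans hm.symm)
  obtain ⟨G0, hG0⟩ := h0
  let GG : ∀ n : ℕ, {G : (Fin d → Fin n) × Pat d → X //
      ∀ᶠ m in (U : Filter ℕ), T.E (R n (Φ m)) G} := fun n =>
    Nat.rec ⟨G0, hG0⟩ (fun n G => ⟨(hstep n G.1 G.2).choose, (hstep n G.1 G.2).choose_spec.1⟩) n
  have hGG : ∀ n z, (GG (n + 1)).1 (g n z) = (GG n).1 z := fun n z =>
    (hstep n (GG n).1 (GG n).2).choose_spec.2 z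
  have hcoh : ∀ (n k : ℕ) (x : Fin d → ℕ) (p : Pat d) (hx : ∀ i, x i < n),
      (GG (n + k)).1 (fun i => ⟨x i, (hx i).trans_le (Nat.le_add_right n k)⟩, p) =
        (GG n).1 (fun i => ⟨x i, hx i⟩, p) := by
    intro n k x p hx
    induction k with
    | zero => rfl
    | succ k ih =>
      rw [← ih]
      exact hGG (n + k) (fun i => ⟨x i, (hx i).trans_le (Nat.le_add_right n k)⟩, p)
  have hbd : ∀ x : Fin d → ℕ, ∀ i, x i < (Finset.univ.sup x) + 1 := fun x i =>
    Nat.lt_succ_of_le (Finset.le_sup (Finset.mem_univ i))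
  refine ⟨fun z => (GG (Finset.univ.sup z.1 + 1)).1 (fun i => ⟨z.1 i, hbd z.1 i⟩, z.2), ?_⟩
  intro κ _ x t h1
  have := Fintype.ofFinite κ
  let n : ℕ := Finset.univ.sup fun a => Finset.univ.sup (x a) + 1
  have hn : ∀ a, Finset.univ.sup (x a) + 1 ≤ n := fun a =>
    Finset.le_sup (f := fun a => Finset.univ.sup (x a) + 1) (Finset.mem_univ a)
  have hxn : ∀ a i, x a i < n := fun a i => (hbd (x a) i).trans_le (hn a)
  have h2 : ∀ a, (GG (Finset.univ.sup (x a) + 1)).1 (fun i => ⟨x a i, hbd (x a) i⟩, pat (t a)) =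
      (GG n).1 (fun i => ⟨x a i, hxn a i⟩, pat (t a)) := by
    intro a
    obtain ⟨k, hk⟩ := Nat.exists_eq_add_of_le (hn a)
    have h3 := hcoh _ k (x a) (pat (t a)) (hbd (x a))
    rw [← h3]
    have key : ∀ (m m' : ℕ) (hm : m = m') (hm1 : ∀ i, x a i < m) (hm2 : ∀ i, x a i < m'),
        (GG m).1 (fun i => ⟨x a i, hm1 i⟩, pat (t a)) =
          (GG m').1 (fun i => ⟨x a i, hm2 i⟩, pat (t a)) := by
      intro m m' hm hm1 hm2
      subst hm
      rfl
    exact key _ _ hk.symm _ _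
  have h3 : (fun a => (GG (Finset.univ.sup (x a) + 1)).1
      (fun i => ⟨x a i, hbd (x a) i⟩, pat (t a))) =
      (GG n).1 ∘ fun a => (fun i => ⟨x a i, hxn a i⟩, pat (t a)) := funext h2
  show T.E (fun a => (GG (Finset.univ.sup (x a) + 1)).1
      (fun i => ⟨x a i, hbd (x a) i⟩, pat (t a))) _
  rw [h3]
  have hinf : ∀ᶠ m in (U : Filter ℕ), n ≤ m := by
    have : (U : Filter ℕ) ≤ Filter.cofinite := Filter.hyperfilter_le_cofinite
    rw [Nat.cofinite_eq_atTop] at this
    exact this (Filter.eventually_ge_atTop n)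
  obtain ⟨m, hm1, hm2⟩ := ((GG n).2.and hinf).exists
  exact T.trans (T.symm (T.comp (fun a => (fun i => ⟨x a i, hxn a i⟩, pat (t a))) hm1))
    (hΦ m κ x t (fun a i => (hxn a i).trans_le hm2) h1)

end Pool.Agent.R617.LH
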