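import Pool.Agent.R617.LH.Defs
import Pool.Agent.R617.LH.Words
import Pool.Agent.R617.TC.Hom

/-!
# First-order types as an instance of the abstract types
-/

set_option autoImplicit false

namespace Pool.Agent.R617.LH

open FirstOrder FirstOrder.Language

variable {L : FirstOrder.Language.{0, 0}} {A : Type} [L.Structure A]

/-- Two families have the same first-order type. -/
def TpEq (L : FirstOrder.Language.{0, 0}) {A : Type} [L.Structure A] {ι : Type} (a b : ι → A) : Prop :=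
  ∀ φ : L.Formula ι, φ.Realize a ↔ φ.Realize b

theorem TpEq.refl {ι : Type} (a : ι → A) : TpEq L a a := fun _ => Iff.rfl

theorem TpEq.symm {ι : Type} {a b : ι → A} (h : TpEq L a b) : TpEq L b a := fun φ => (h φ).symm

theorem TpEq.trans {ι : Type} {a b c : ι → A} (h : TpEq L a b) (h' : TpEq L b c) : TpEq L a c :=
  fun φ => (h φ).trans (h' φ)

theorem TpEq.comp {ι κ : Type} {a b : ι → A} (s : κ → ι) (h : TpEq L a b) :
    TpEq L (a ∘ s) (b ∘ s) := by
  intro φ
  have := h (φ.relabel s)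
  rwa [Formula.realize_relabel, Formula.realize_relabel] at this

theorem TpEq.eqv {ι : Type} {a b : ι → A} (h : TpEq L a b) (i j : ι) : a i = a j ↔ b i = b j := by
  have := h ((Term.var i).equal (Term.var j))
  simpa using this

theorem TpEq.rel {ι : Type} {a b : ι → A} (h : TpEq L a b) {k : ℕ} (R : L.Relations k)
    (f : Fin k → ι) :
    Structure.RelMap R (fun i => a (f i)) ↔ Structure.RelMap R (fun i => b (f i)) := by
  have := h (R.formula fun i => Term.var (f i))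
  simpa using this

variable (L A) in
/-- There are finitely many types. -/
def FinTypes : Prop := ∀ (ι : Type) [Finite ι], ∃ (q : ℕ) (τ : (ι → A) → Fin q),
  ∀ a b, τ a = τ b → TpEq L a b

theorem isolate (hf : FinTypes L A) {ι : Type} [Finite ι] (u : ι → A) :
    ∃ χ : L.Formula ι, ∀ v, χ.Realize v ↔ TpEq L u v := by
  classical
  obtain ⟨q, τ, hτ⟩ := hf ι
  have h1 : ∀ j : Fin q, ∃ φ : L.Formula ι, φ.Realize u ∧
      ∀ b, τ b = j → φ.Realize b → TpEq L u b := by
    intro j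
    by_cases h2 : ∃ b, τ b = j ∧ ¬ TpEq L u b
    · obtain ⟨b, hb, h3⟩ := h2
      have h4 : ∃ φ : L.Formula ι, ¬ (φ.Realize u ↔ φ.Realize b) := by
        by_contra h5
        exact h3 fun φ => by
          by_contra h6
          exact h5 ⟨φ, h6⟩
      obtain ⟨φ, hφ⟩ := h4
      by_cases h5 : φ.Realize u
      · have h6 : ¬ φ.Realize b := fun h7 => hφ ⟨fun _ => h7, fun _ => h5⟩
        refine ⟨φ, h5, fun b' hb' h7 => ?_⟩
        exact absurd ((hτ b' b (hb'.trans hb.symm) φ).1 h7) h6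
      · have h6 : φ.Realize b := by
          by_contra h7
          exact hφ ⟨fun h8 => absurd h8 h5, fun h8 => absurd h8 h7⟩
        refine ⟨φ.not, by rwa [Formula.realize_not], fun b' hb' h7 => ?_⟩
        rw [Formula.realize_not] at h7
        exact absurd ((hτ b' b (hb'.trans hb.symm) φ).2 h6) h7
    · refine ⟨⊤, Formula.realize_top.2 trivial, fun b hb _ => ?_⟩
      by_contra h3
      exact h2 ⟨b, hb, h3⟩
  choose φ hφ1 hφ2 using h1
  refine ⟨Formula.iInf φ, fun v => ?_⟩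
  rw [Formula.realize_iInf]
  constructor
  · intro h2
    exact hφ2 (τ v) v rfl (h2 (τ v))
  · intro h2 j
    exact (h2 (φ j)).1 (hφ1 j)

theorem extend (hf : FinTypes L A) {ι κ : Type} [Finite ι] [Finite κ] (g : ι → κ) (u : κ → A)
    (v : ι → A) (h : TpEq L (u ∘ g) v) : ∃ u' : κ → A, TpEq L u u' ∧ ∀ i, u' (g i) = v i := by
  obtain ⟨χ, hχ⟩ := isolate hf u
  let ψ : L.Formula ι := Formula.iExs κ ((χ.relabel Sum.inr) ⊓
    Formula.iInf fun i : ι => (Term.var (Sum.inr (g i)) : L.Term (ι ⊕ κ)).equal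
      (Term.var (Sum.inl i)))
  have hψ : ∀ w : ι → A, ψ.Realize w ↔ ∃ u' : κ → A, TpEq L u u' ∧ ∀ i, u' (g i) = w i := by
    intro w
    show (Formula.iExs κ _).Realize w ↔ _
    rw [Formula.realize_iExs]
    refine exists_congr fun u' => ?_
    rw [Formula.realize_inf, Formula.realize_relabel, Formula.realize_iInf]
    have h1 : Sum.elim w u' ∘ Sum.inr = u' := rfl
    rw [h1, hχ]
    refine and_congr_right fun _ => forall_congr' fun i => ?_
    rw [Formula.realize_equal]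
    exact Iff.rfl
  exact (hψ v).1 ((h ψ).1 ((hψ _).2 ⟨u, TpEq.refl u, fun _ => rfl⟩))

/-- The swapping property. -/
theorem swapping (hf : FinTypes L A) (hs : IsStable L A) (ι : Type) [Finite ι] :
    ∃ N : ℕ, ∀ L' : ℕ, N ≤ L' → ∀ c : Fin L' → ι → A,
      (∀ i j i' j', i < j → i' < j' →
        TpEq L (Sum.elim (c i) (c j)) (Sum.elim (c i') (c j'))) →
      ∀ i j, i < j → TpEq L (Sum.elim (c i) (c j)) (Sum.elim (c j) (c i)) := by
  classical
  obtain ⟨q, τ, hτ⟩ := hf (ι ⊕ ι)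
  -- stability for arbitrary finite index types
  have hst : ∀ φ : L.Formula (ι ⊕ ι), ∃ n : ℕ, ¬ ∃ (a b : Fin n → ι → A),
      ∀ i j, φ.Realize (Sum.elim (a i) (b j)) ↔ i < j := by
    intro φ
    obtain ⟨m, ⟨e⟩⟩ := Finite.exists_equiv_fin ι
    obtain ⟨n, hn⟩ := hs m m (φ.relabel (Sum.map e e))
    refine ⟨n, fun ⟨a, b, hab⟩ => hn ⟨fun i => a i ∘ e.symm, fun i => b i ∘ e.symm, fun i j => ?_⟩⟩
    rw [← hab, Formula.realize_relabel]
    have : Sum.elim (a i ∘ e.symm) (b j ∘ e.symm) ∘ Sum.map e e = Sum.elim (a i) (b j) := by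
      funext z
      rcases z with z | z
      · show a i (e.symm (e z)) = a i z
        rw [e.symm_apply_apply]
      · show b j (e.symm (e z)) = b j z
        rw [e.symm_apply_apply]
    rw [this]
  have h1 : ∀ jj : Fin q × Fin q, ∃ n : ℕ, ∀ p1 p2 : ι ⊕ ι → A, τ p1 = jj.1 → τ p2 = jj.2 →
      ¬ TpEq L p1 p2 → ∃ φ : L.Formula (ι ⊕ ι), φ.Realize p1 ∧ ¬ φ.Realize p2 ∧
        ¬ ∃ (a b : Fin n → ι → A), ∀ i j, φ.Realize (Sum.elim (a i) (b j)) ↔ i < j := by
    intro jj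
    by_cases h2 : ∃ p1 p2 : ι ⊕ ι → A, τ p1 = jj.1 ∧ τ p2 = jj.2 ∧ ¬ TpEq L p1 p2
    · obtain ⟨p1, p2, h3, h4, h5⟩ := h2
      have h6 : ∃ φ : L.Formula (ι ⊕ ι), φ.Realize p1 ∧ ¬ φ.Realize p2 := by
        have h7 : ∃ φ : L.Formula (ι ⊕ ι), ¬ (φ.Realize p1 ↔ φ.Realize p2) := by
          by_contra h8
          exact h5 fun φ => by
            by_contra h9
            exact h8 ⟨φ, h9⟩
        obtain ⟨φ, hφ⟩ := h7
        by_cases h8 : φ.Realize p1
        · exact ⟨φ, h8, fun h9 => hφ ⟨fun _ => h9, fun _ => h8⟩⟩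
        · refine ⟨φ.not, by rwa [Formula.realize_not], ?_⟩
          rw [Formula.realize_not, not_not]
          by_contra h9
          exact hφ ⟨fun h10 => absurd h10 h8, fun h10 => absurd h10 h9⟩
      obtain ⟨φ, h7, h8⟩ := h6
      obtain ⟨n, hn⟩ := hst φ
      refine ⟨n, fun p1' p2' h9 h10 _ => ⟨φ, ?_, ?_, hn⟩⟩
      · exact (hτ p1 p1' (h3.trans h9.symm) φ).1 h7
      · intro h11
        exact h8 ((hτ p2 p2' (h4.trans h10.symm) φ).2 h11)
    · exact ⟨0, fun p1 p2 h3 h4 h5 => absurd ⟨p1, p2, h3, h4, h5⟩ h2⟩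
  choose nn hnn using h1
  obtain ⟨M, hM⟩ := (Set.finite_range nn).bddAbove
  have hM' : ∀ jj, nn jj ≤ M := fun jj => hM ⟨jj, rfl⟩
  refine ⟨2 * M + 2, fun L' hL' c hc i j hij => ?_⟩
  by_contra hcon
  obtain ⟨φ, h2, h3, h4⟩ := hnn (τ (Sum.elim (c i) (c j)), τ (Sum.elim (c j) (c i)))
    (Sum.elim (c i) (c j)) (Sum.elim (c j) (c i)) rfl rfl hcon
  apply h4
  have hb := hM' (τ (Sum.elim (c i) (c j)), τ (Sum.elim (c j) (c i)))
  refine ⟨fun k => c ⟨2 * k + 1, by have := k.2; omega⟩, fun k => c ⟨2 * k, by have := k.2; omega⟩,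
    fun k l => ?_⟩
  have hk := k.2
  have hl := l.2
  constructor
  · intro h5
    by_contra h6
    have h7 : (⟨2 * l, by omega⟩ : Fin L') < ⟨2 * k + 1, by omega⟩ := by
      rw [Fin.lt_def]
      rw [Fin.lt_def] at h6
      simp only
      omega
    have h8 := (hc _ _ i j h7 hij).comp (Sum.elim Sum.inr Sum.inl : ι ⊕ ι → ι ⊕ ι)
    have h9 : (Sum.elim (c ⟨2 * l, by omega⟩) (c ⟨2 * k + 1, by omega⟩)) ∘
        (Sum.elim Sum.inr Sum.inl : ι ⊕ ι → ι ⊕ ι) =
        Sum.elim (c ⟨2 * k + 1, by omega⟩) (c ⟨2 * l, by omega⟩) := by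
      funext z
      rcases z with z | z <;> rfl
    have h10 : (Sum.elim (c i) (c j)) ∘ (Sum.elim Sum.inr Sum.inl : ι ⊕ ι → ι ⊕ ι) =
        Sum.elim (c j) (c i) := by
      funext z
      rcases z with z | z <;> rfl
    rw [h9, h10] at h8
    exact h3 ((h8 φ).1 h5)
  · intro h5
    have h7 : (⟨2 * k + 1, by omega⟩ : Fin L') < ⟨2 * l, by omega⟩ := by
      rw [Fin.lt_def]
      rw [Fin.lt_def] at h5
      simp only
      omega
    exact ((hc _ _ i j h7 hij) φ).2 h2

end Pool.Agent.R617.LH
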